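import Pool.Agent.Helper61.CAR.GoalsQ

/-!
# Project CAR (MP_d97caa_an), packet LADC: the window operators for functions
-/

set_option autoImplicit false

open scoped ComplexOrder ZeroAtInfty InnerProductSpace ComplexConjugate Topology
open Filter

namespace Pool.Agent.Helper58.CAR

open _root_.Pool.Agent.Helper61.CAR _root_.Pool.Agent.Helper34.CAR

/-- Uniform choice of the step and of the radius for finitely many functions. -/
theorem unif (D : Type) [NonUnitalCStarAlgebra D] (F : Finset C₀(ℝ, D)) (e : ℝ) (he : 0 < e) :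
    ∃ r : ℝ, 0 < r ∧ r ≤ 1 ∧ ∃ M : ℝ, 0 ≤ M ∧ ∀ f ∈ F,
      (∀ t t', |t - t'| ≤ r → ‖f t - f t'‖ ≤ e) ∧ ∀ t, M ≤ |t| → ‖f t‖ ≤ e := by
  classical
  induction F using Finset.induction_on with
  | empty => exact ⟨1, one_pos, le_refl _, 0, le_refl _, by simp⟩
  | insert f F _ ih =>
    obtain ⟨r, hr, hr1, M, hM, h⟩ := ih
    obtain ⟨δ, hδ, h1⟩ := Metric.uniformContinuous_iff.1 (ZeroAtInftyContinuousMap.uniformContinuous f) e he
    have h2 : ∀ᶠ t in cocompact ℝ, ‖f t‖ < e := by
      have := (zero_at_infty f).norm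
      rw [norm_zero] at this
      exact this.eventually_lt_const he
    obtain ⟨K, hK, hK2⟩ := (hasBasis_cocompact (X := ℝ)).eventually_iff.1 h2
    obtain ⟨M', hM'⟩ := hK.isBounded.exists_norm_le
    refine ⟨min r (δ / 2), by positivity, (min_le_left _ _).trans hr1, max M (M' + 1),
      hM.trans (le_max_left _ _), ?_⟩
    intro g hg
    rcases Finset.mem_insert.1 hg with rfl | hg
    · refine ⟨fun t t' htt => ?_, fun t ht => ?_⟩
      · have h3 : dist t t' < δ := by
          rw [Real.dist_eq]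
          have := htt.trans (min_le_right _ _)
          linarith
        have h4 := h1 h3
        rw [dist_eq_norm] at h4
        exact h4.le
      · refine (hK2 ?_).le
        intro htK
        have h3 := hM' t htK
        rw [Real.norm_eq_abs] at h3
        have := (le_max_right M (M' + 1)).trans ht
        linarith
    · obtain ⟨h3, h4⟩ := h g hg
      exact ⟨fun t t' htt => h3 t t' (htt.trans (min_le_left _ _)),
        fun t ht => h4 t ((le_max_left _ _).trans ht)⟩

/-- The sum over the window. -/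
theorem sum_win (n0 : ℕ) (G : ℤ → ℝ) :
    ∑ i : Fin (2 * n0 + 1), G ((i : ℕ) - n0 : ℤ) = ∑ i ∈ Finset.Icc (-(n0 : ℤ)) n0, G i := by
  refine Finset.sum_bij (fun i _ => ((i : ℕ) - n0 : ℤ)) ?_ ?_ ?_ ?_
  · intro i _
    rw [Finset.mem_Icc]
    have := i.2
    constructor <;> omega
  · intro i _ j _ h
    ext
    have h' : ((i : ℕ) : ℤ) - n0 = ((j : ℕ) : ℤ) - n0 := h
    omega
  · intro z hz
    rw [Finset.mem_Icc] at hz
    refine ⟨⟨(z + n0).toNat, by omega⟩, Finset.mem_univ _, ?_⟩
    show (((z + n0).toNat : ℕ) : ℤ) - n0 = z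
    omega
  · intro i _
    rfl

/-- **LADC**. -/
theorem ladc (hTENT : S_TENT) (hLADR : S_LADR) (hWIN : S_WIN) (hMULT : S_MULT) : S_LADC := by
  classical
  intro D _ H _ _ _ π m w s F ε hε hF
  have he : 0 < ε / 40 := by positivity
  obtain ⟨r, hr, hr1, M, hM, hun⟩ := unif D F (ε / 40) he
  obtain ⟨T1, T2, T3, T4, T5, T6, T7, -⟩ := hTENT r hr
  obtain ⟨n0, hn0⟩ := exists_nat_ge ((M + |s| + 2) / r)
  rw [div_le_iff₀ hr] at hn0
  have hs0 := abs_nonneg s
  -- the window
  set n := 2 * n0 + 1 with hn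
  have hnpos : (0 : ℝ) < n := by rw [hn]; positivity
  set δ : ℝ := ε / (80 * (n : ℝ) ^ 2) with hδ
  have hδpos : 0 < δ := by positivity
  set k : ℝ := r * δ ^ 2 with hk
  have hkpos : 0 < k := by positivity
  have hsq : Real.sqrt (k / r) = δ := by
    rw [hk, mul_div_cancel_left₀ _ hr.ne', Real.sqrt_sq hδpos.le]
  obtain ⟨N, hN⟩ := exists_nat_ge ((((n0 : ℝ) + 1) * r - s) / k)
  rw [div_le_iff₀ hkpos] at hN
  set ix : Fin n → ℤ := fun i => ((i : ℕ) : ℤ) - n0 with hix
  have hixle : ∀ i, ix i ≤ n0 := fun i => by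
    have := i.2
    simp only [hix]
    omega
  set t : Fin n → ℝ := fun i => (ix i : ℝ) * r with ht
  set c : Fin n → ℕ → ℝ := fun i q => Real.sqrt (lam r (ix i) (s + q * k)) with hc
  have hc2 : ∀ i q, c i q ^ 2 = lam r (ix i) (s + q * k) := fun i q => Real.sq_sqrt (T1 _ _)
  have hsumc : ∀ q, ∑ i, c i q ^ 2 = ∑ i ∈ Finset.Icc (-(n0 : ℤ)) n0, lam r i (s + q * k) := by
    intro q
    rw [← sum_win n0 fun z => lam r z (s + q * k)]
    exact Finset.sum_congr rfl fun i _ => hc2 i q
  -- the ladder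
  set S : Finset (H →L[ℂ] H) := (F ×ˢ (Finset.univ : Finset (Fin n))).image
    fun p => π (p.1 (t p.2)) with hS
  have hSmem : ∀ f ∈ F, ∀ i, π (f (t i)) ∈ S := fun f hf i =>
    Finset.mem_image.2 ⟨(f, i), Finset.mem_product.2 ⟨hf, Finset.mem_univ _⟩, rfl⟩
  have hfd : FiniteDimensional ℂ (Submodule.span ℂ (Set.range w)) :=
    FiniteDimensional.span_of_finite ℂ (Set.finite_range w)
  obtain ⟨V, hV0, hVm, hVf, hVS⟩ := hLADR H S _ hfd
  have hw0 : ∀ l, w l ∈ V 0 := fun l => by
    rw [hV0]
    exact Submodule.subset_span ⟨l, rfl⟩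
  have cz : ∀ i q, N ≤ q → c i q = 0 := by
    intro i q hq
    have h1 : lam r (ix i) (s + q * k) = 0 := by
      by_contra h
      have h2 := T7 _ _ h
      have h3 : ((n0 : ℝ) + 1) * r - s ≤ q * k := by
        refine hN.trans ?_
        have : (N : ℝ) ≤ q := by exact_mod_cast hq
        exact mul_le_mul_of_nonneg_right this hkpos.le
      have h4 : (ix i : ℝ) ≤ n0 := by exact_mod_cast hixle i
      have h5 : (ix i : ℝ) * r ≤ n0 * r := mul_le_mul_of_nonneg_right h4 hr.le
      rw [abs_lt] at h2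
      linarith [h2.2]
    show Real.sqrt _ = 0
    rw [h1, Real.sqrt_zero]
  have cl : ∀ i q, |c i q - c i (q + 1)| ≤ δ := by
    intro i q
    refine (T6 _ _ _).trans ?_
    rw [← hsq]
    refine Real.sqrt_le_sqrt ?_
    refine div_le_div_of_nonneg_right ?_ hr.le
    have : s + (q : ℝ) * k - (s + ((q + 1 : ℕ) : ℝ) * k) = -k := by push_cast; ring
    rw [this, abs_neg, abs_of_pos hkpos]
  have cs1 : ∀ q, ∑ i, c i q ^ 2 ≤ 1 := fun q => by rw [hsumc]; exact T4 _ _
  have cj : ∀ (i j : Fin n) q, (i : ℕ) + 2 ≤ j → c i q * c j q = 0 := by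
    intro i j q hij
    have h1 := T3 (ix i) (ix j) (s + q * k) (by simp only [hix]; omega)
    show Real.sqrt _ * Real.sqrt _ = 0
    rw [← Real.sqrt_mul (T1 _ _), h1, Real.sqrt_zero]
  obtain ⟨C, C1, C2, C3, C4, C5, C6, C7, C8⟩ :=
    hWIN H V hVm hVf S hVS n N c δ cz cl hδpos.le cs1 cj
  have hpi : ∀ f ∈ F, ∀ i, ‖π (f (t i))‖ ≤ 1 := by
    intro f hf i
    refine (NonUnitalStarAlgHom.norm_apply_le π _).trans ?_
    refine le_trans ?_ (hF f hf)
    have := ZeroAtInftyContinuousMap.toBCF f |>.norm_coe_le_norm (t i)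
    exact this
  have hcomm : ∀ f ∈ F, ∀ i j, ‖C i * π (f (t j)) - π (f (t j)) * C i‖ ≤ 2 * δ := by
    intro f hf i j
    refine (C5 i _ (hSmem f hf j)).trans ?_
    exact mul_le_of_le_one_right (by positivity) (hpi f hf j)
  have hn0s : |s| ≤ n0 * r := by linarith
  refine ⟨n, t, C, V N, fun i => c i 0, hVf N, fun l => hVm (Nat.zero_le N) (hw0 l), C1, C3, C6,
    ?_, ?_, ?_, ?_⟩
  · intro f hf g hg
    have h1 := hMULT H n C (fun i => π (f (t i))) (fun i => π (g (t i))) (2 * δ) (ε / 40)
      (by positivity) he.le C1 C2 C3 C4 (hpi f hf) (hpi g hg) (hcomm f hf) (hcomm g hg) ?_ ?_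
    · have h2 : (∑ i, C i * π ((f * g) (t i)) * C i) =
          ∑ i, C i * (π (f (t i)) * π (g (t i))) * C i := by
        refine Finset.sum_congr rfl fun i _ => ?_
        rw [← map_mul]
        rfl
      rw [h2]
      refine lt_of_le_of_lt h1 ?_
      have h3 : 10 * (n : ℝ) ^ 2 * (2 * δ) = ε / 4 := by
        rw [hδ]
        field_simp
        norm_num
      rw [h3]
      linarith
    · intro i j hij hji
      show ‖π (g (t i)) - π (g (t j))‖ ≤ ε / 40
      rw [← map_sub]
      refine (NonUnitalStarAlgHom.norm_apply_le π _).trans ?_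
      refine (hun g hg).1 _ _ ?_
      have h2 : t i - t j = ((ix i : ℝ) - ix j) * r := by simp only [ht]; ring
      rw [h2, abs_mul, abs_of_pos hr]
      refine mul_le_of_le_one_left hr.le ?_
      have h3 : |ix i - ix j| ≤ 1 := by
        rw [abs_le]
        simp only [hix]
        constructor <;> omega
      exact_mod_cast h3
    · intro i
      by_cases hi : ix i < n0
      · left
        refine C8 i fun q hq => ?_
        have h2 : lam r (ix i) (s + q * k) ≠ 0 := by
          intro h
          refine hq ?_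
          show Real.sqrt _ = 0
          rw [h, Real.sqrt_zero]
        have h3 := T7 _ _ h2
        rw [hsumc]
        refine T5 _ _ ?_
        rw [abs_lt] at h3
        have h4 : (ix i : ℝ) + 1 ≤ n0 := by exact_mod_cast hi
        have h5 : ((ix i : ℝ) + 1) * r ≤ n0 * r := mul_le_mul_of_nonneg_right h4 hr.le
        have h6 : 0 ≤ (q : ℝ) * k := by positivity
        have h7 := neg_abs_le s
        rw [abs_le]
        constructor
        · linarith
        · linarith [h3.2]
      · right
        have hi' : ix i = n0 := le_antisymm (hixle i) (not_lt.1 hi)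
        refine (NonUnitalStarAlgHom.norm_apply_le π _).trans ?_
        refine (hun g hg).2 _ ?_
        have h2 : t i = n0 * r := by
          simp only [ht]
          rw [hi']
          push_cast
          ring
        rw [h2, abs_of_nonneg (by positivity)]
        linarith
  · intro i l
    exact C7 i _ (hw0 l)
  · show ∑ i, c i 0 ^ 2 = 1
    rw [hsumc]
    refine T5 _ _ ?_
    simpa using hn0s
  · intro f hf i hi
    have h2 : lam r (ix i) s ≠ 0 := by
      intro h
      refine hi ?_
      show Real.sqrt _ = 0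
      have : s + ((0 : ℕ) : ℝ) * k = s := by simp
      rw [this, h, Real.sqrt_zero]
    have h3 := T7 _ _ h2
    refine lt_of_le_of_lt ((hun f hf).1 _ _ ?_) (by linarith : ε / 40 < ε)
    rw [abs_sub_comm]
    exact h3.le

end Pool.Agent.Helper58.CAR
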